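import Mathlib
import Pool.Agent.MaxTermRatio.Final

set_option autoImplicit false

namespace Pool.Agent.Results.MP_58b66c_an.LimitsAboveHalf

open Filter Topology

/-- Every real `C` with `0 < C < √(128/(207+33√33)) = 0.56812...` is the limit of
maximum term over maximum modulus for some transcendental entire function. -/
theorem result (C : ℝ) (h0 : 0 < C) (h1 : C < Real.sqrt (128 / (207 + 33 * Real.sqrt 33))) :
    ∃ (a : ℕ → ℂ) (f : ℂ → ℂ), (∀ z, HasSum (fun n => a n * z ^ n) (f z)) ∧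
      (∀ P : Polynomial ℂ, ∃ z, f z ≠ P.eval z) ∧
      Tendsto (fun r : ℝ => (⨆ n, ‖a n‖ * r ^ n) / (⨆ z : Metric.sphere (0 : ℂ) r, ‖f z‖))
        atTop (𝓝 C) :=
  Pool.Agent.MaxTermRatio.limit_exists C h0 h1

end Pool.Agent.Results.MP_58b66c_an.LimitsAboveHalf
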