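import Mathlib
import Pool.Agent.LibIV39.Top

set_option autoImplicit false

namespace Pool.Agent.Results.MP_58b66c_an.LimitsInterval

open Filter Topology

/-- If `C` is the limit of maximum term over maximum modulus for some transcendental entire
function, then so is every `C'` with `0 < C' ≤ C`. -/
theorem result (C C' : ℝ) (h0 : 0 < C') (h1 : C' ≤ C)
    (h : ∃ (a : ℕ → ℂ) (f : ℂ → ℂ), (∀ z, HasSum (fun n => a n * z ^ n) (f z)) ∧
      (∀ P : Polynomial ℂ, ∃ z, f z ≠ P.eval z) ∧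
      Tendsto (fun r : ℝ => (⨆ n, ‖a n‖ * r ^ n) / (⨆ z : Metric.sphere (0 : ℂ) r, ‖f z‖))
        atTop (𝓝 C)) :
    ∃ (a : ℕ → ℂ) (f : ℂ → ℂ), (∀ z, HasSum (fun n => a n * z ^ n) (f z)) ∧
      (∀ P : Polynomial ℂ, ∃ z, f z ≠ P.eval z) ∧
      Tendsto (fun r : ℝ => (⨆ n, ‖a n‖ * r ^ n) / (⨆ z : Metric.sphere (0 : ℂ) r, ‖f z‖))
        atTop (𝓝 C') :=
  Pool.Agent.LibIV39.top C C' h0 h1 h

end Pool.Agent.Results.MP_58b66c_an.LimitsInterval
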