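import Mathlib
import Pool.Agent.LibCH71.Fin

set_option autoImplicit false

namespace Pool.Agent.Results.MP_58b66c_an.UpperBound

/-- Every transcendental entire function has arbitrarily large radii at which the ratio of the
maximum term to the maximum modulus is at most `0.6249`, which is less than `5/8`. -/
theorem result (a : ℕ → ℂ) (f : ℂ → ℂ) (hf : ∀ z, HasSum (fun n => a n * z ^ n) (f z))
    (hp : ∀ P : Polynomial ℂ, ∃ z, f z ≠ P.eval z) (T : ℝ) :
    ∃ r : ℝ, T ≤ r ∧ 0 < r ∧
      (⨆ n, ‖a n‖ * r ^ n) / (⨆ z : Metric.sphere (0 : ℂ) r, ‖f z‖) ≤ 6249 / 10000 :=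
  Pool.Agent.LibCH71.main a f hf hp T

end Pool.Agent.Results.MP_58b66c_an.UpperBound
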